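import Pool.Agent.T6.H53.FR.Defs
import Pool.Agent.T6.H40.FRCore

/-!
Fisher's relation, module A: the correlation length and the rate function, lower bounds (helper40).
-/

set_option autoImplicit false

namespace Pool.Agent.T6.H53.FR

open Pool.Agent.TH795.EP Pool.Agent.TH795.EP2 Pool.Agent.TH795.SE2 Pool.Agent.TH262.SawL
  Pool.Agent.Y981.L2 H981 Finset Filter Topology Pool.Agent.T6.H53.WL Pool.Agent.T6.H53.AL

theorem stmA : StmA := fun _ h0 h1 =>
  ⟨fun h => Pool.Agent.T6.H40.FRCore.low_to_ge (R := R) (M := mass) h0 h1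
      (fun _ _ hv0 hv1 he => Pool.Agent.Y981.L2X.le_R hv0 hv1 he) h,
    fun h => Pool.Agent.T6.H40.FRCore.ge_to_low (R := R) (M := mass) h0 h1
      (fun _ _ a b c => R_mono a b c) (fun _ a b => R_pos a b) (fun _ he => mass_pos he)
      (fun _ he _ hd => exists_speed he hd) h⟩

end Pool.Agent.T6.H53.FR
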