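import Pool.Agent.T6.H53.FR.Defs
import Pool.Agent.T6.H40.FRCore

/-!
Fisher's relation, module B: the correlation length and the rate function, upper bounds (helper40).
-/

set_option autoImplicit false

namespace Pool.Agent.T6.H53.FR

open Pool.Agent.TH795.EP Pool.Agent.TH795.EP2 Pool.Agent.TH795.SE2 Pool.Agent.TH262.SawL
  Pool.Agent.Y981.L2 H981 Finset Filter Topology Pool.Agent.T6.H53.WL Pool.Agent.T6.H53.AL

/-- the slope of the chord from zero is increasing -/
theorem R_chord (v u : ℝ) (hv : 0 < v) (hvu : v ≤ u) (hu : u ≤ 1) : R v * u ≤ v * R u := by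
  have hu0 : 0 < u := hv.trans_le hvu
  have h := R_convex.2 (⟨hu0.le, hu⟩ : u ∈ Set.Icc (0 : ℝ) 1)
    (⟨le_rfl, zero_le_one⟩ : (0 : ℝ) ∈ Set.Icc (0 : ℝ) 1)
    (show (0 : ℝ) ≤ v / u by positivity)
    (show (0 : ℝ) ≤ 1 - v / u by rw [sub_nonneg, div_le_one hu0]; exact hvu) (by ring)
  simp only [smul_eq_mul, mul_zero, add_zero, R_zero] at h
  rw [div_mul_cancel₀ _ hu0.ne'] at h
  calc R v * u ≤ (v / u * R u) * u := mul_le_mul_of_nonneg_right h hu0.le
    _ = v * R u := by
      field_simp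

theorem stmB : StmB := fun _ h0 h1 =>
  ⟨fun h => Pool.Agent.T6.H40.FRCore.up_to_le (R := R) (M := mass) h0 h1
      R_chord (fun _ a b => R_pos a b) (fun _ he => mass_pos he)
      (fun _ he _ hd => exists_speed he hd) h,
    fun h => Pool.Agent.T6.H40.FRCore.le_to_up (R := R) (M := mass) h0 h1
      (fun _ _ hv0 hv1 he => Pool.Agent.Y981.L2X.le_R hv0 hv1 he) h⟩

end Pool.Agent.T6.H53.FR
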