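import Pool.Agent.T6.H53.FR.Defs

/-!
# The upper tails and the lower bound of the rate function (module C, helper49)
-/

set_option autoImplicit false

namespace Pool.Agent.T6.H53.FR

open Pool.Agent.TH795.EP Pool.Agent.TH795.EP2 Pool.Agent.TH795.SE2 Pool.Agent.TH262.SawL
  Pool.Agent.Y981.L2 H981 Finset Filter Topology Pool.Agent.T6.H53.WL Pool.Agent.T6.H53.AL

namespace ModC

/-- `n ^ (κ - 1) / 2` tends to `0` from the right -/
lemma tendsto_v {κ : ℝ} (hκ : κ < 1) :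
    Tendsto (fun n : ℕ => (n : ℝ) ^ (κ - 1) / 2) atTop (𝓝[>] 0) := by
  rw [tendsto_nhdsWithin_iff]
  constructor
  · have h1 := (tendsto_rpow_neg_atTop (y := 1 - κ) (by linarith)).comp
      (tendsto_natCast_atTop_atTop (R := ℝ))
    have h2 := h1.div_const 2
    rw [zero_div] at h2
    refine h2.congr fun n => ?_
    simp only [Function.comp_apply]
    congr 2
    ring
  · filter_upwards [eventually_ge_atTop 1] with n hn
    have hn0 : (0 : ℝ) < n := by exact_mod_cast hn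
    exact div_pos (Real.rpow_pos_of_pos hn0 _) two_pos

lemma exp_eq {θ κ : ℝ} (hθ1 : θ < 1) :
    1 - (κ - θ) / (1 - θ) = (1 - κ) / (1 - θ) := by
  have : (1 - θ) ≠ 0 := by linarith
  field_simp
  ring

theorem mp (P : ℕ → ℝ → ℝ) (hP : Tl P) (θ κ : ℝ) (hθ : 0 < θ) (hθκ : θ < κ) (hκ : κ < 1)
    (hR : RGe θ) : TGe P θ κ := by
  intro ε hε
  obtain ⟨hanti, K, hK, hb⟩ := hP
  set s := (κ - θ) / (1 - θ) with hs
  have hθ1 : 0 < 1 - θ := by linarith
  have hκ1 : 0 < 1 - κ := by linarith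
  have hs0 : 0 < s := div_pos (by linarith) hθ1
  set η := min ε (s / 2) with hη
  have hη0 : 0 < η := lt_min hε (by linarith)
  have hηε : η ≤ ε := min_le_left _ _
  have hηs : η ≤ s / 2 := min_le_right _ _
  set p := 1 / (1 - θ) + η / 2 with hp
  have hp0 : 0 < p := by positivity
  have h1 := (tendsto_v hκ).eventually (hR (η / 2) (by linarith))
  set a := s - (1 - κ) * (η / 2) with ha
  have has : s - η < a := by
    have : (1 - κ) * (η / 2) < η := by nlinarith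
    linarith
  have h2 := ev_pow ((2 : ℝ) ^ p) has
  have h3 := ev_log K 0 (show 0 < s - η by linarith)
  have h4 := ev_pow 4 hκ
  have h5 : ∀ᶠ n : ℕ in atTop, 2 * (n : ℝ) ^ (0 : ℝ) ≤ (n : ℝ) ^ κ := ev_pow 2 (by linarith)
  filter_upwards [h1, h2, h3, h4, h5, eventually_ge_atTop 2] with n g1 g2 g3 g4 g5 hn
  have hn0 : (0 : ℝ) < n := by
    have : (0 : ℕ) < n := by omega
    exact_mod_cast this
  have hn1 : (1 : ℝ) ≤ n := by
    have : (1 : ℕ) ≤ n := by omega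
    exact_mod_cast this
  rw [Real.rpow_one] at g4
  rw [Real.rpow_zero, mul_one] at g5
  set x := (n : ℝ) ^ κ with hx
  have hx0 : 0 < x := Real.rpow_pos_of_pos hn0 _
  obtain ⟨k, hk⟩ : ∃ k, k = ⌊x⌋₊ := ⟨_, rfl⟩
  have hkx : (k : ℝ) ≤ x := by rw [hk]; exact Nat.floor_le hx0.le
  have hkx2 : x < k + 1 := by rw [hk]; exact Nat.lt_floor_add_one x
  have hk1r : (1 : ℝ) < (k : ℝ) + 1 := by linarith
  have hk1 : 1 ≤ k := by
    have : (0 : ℝ) < (k : ℝ) := by linarith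
    exact_mod_cast this
  have hk2 : 2 * k < n := by
    have : (2 : ℝ) * k < n := by linarith
    exact_mod_cast this
  have hkv : x / 2 ≤ k := by linarith
  have e1 := hanti n (by omega) k x (by positivity) hkx
  have e2 := (hb n hn k hk1 hk2).2
  have hv : (n : ℝ) ^ (κ - 1) / 2 ≤ k / n := by
    rw [Real.rpow_sub_one hn0.ne', div_right_comm]
    exact div_le_div_of_nonneg_right hkv hn0.le
  have hv0 : 0 ≤ (n : ℝ) ^ (κ - 1) / 2 := by positivity
  have hk1n : (k : ℝ) / n ≤ 1 := by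
    rw [div_le_one hn0]
    have : (2 : ℝ) * k < n := by exact_mod_cast hk2
    have : (0 : ℝ) ≤ k := by positivity
    linarith
  have e3 : ((n : ℝ) ^ (κ - 1) / 2) ^ p ≤ R (k / n) := g1.trans (R_mono hv0 hv hk1n)
  have e4 : (n : ℝ) * ((n : ℝ) ^ (κ - 1) / 2) ^ p = (n : ℝ) ^ a / 2 ^ p := by
    rw [Real.div_rpow (by positivity) (by norm_num), ← Real.rpow_mul hn0.le, mul_div_assoc']
    congr 1
    nth_rewrite 1 [← Real.rpow_one (n : ℝ)]
    rw [← Real.rpow_add hn0]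
    congr 1
    rw [hp, ha, hs]
    field_simp
    ring
  have e5 : (n : ℝ) ^ (s - η) ≤ n * R (k / n) := by
    calc (n : ℝ) ^ (s - η) ≤ (n : ℝ) ^ a / 2 ^ p := by
          rw [le_div_iff₀ (by positivity), mul_comm]
          exact g2
      _ = (n : ℝ) * ((n : ℝ) ^ (κ - 1) / 2) ^ p := e4.symm
      _ ≤ n * R (k / n) := mul_le_mul_of_nonneg_left e3 hn0.le
  refine (e1.trans e2).trans ?_
  apply Real.exp_le_exp.2
  have e6 : (n : ℝ) ^ (s - ε) ≤ (n : ℝ) ^ (s - η) :=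
    Real.rpow_le_rpow_of_exponent_le hn1 (by linarith)
  linarith

theorem mpr (P : ℕ → ℝ → ℝ) (hP : Tl P) (θ κ : ℝ) (hθ : 0 < θ) (hθκ : θ < κ) (hκ : κ < 1)
    (hT : TGe P θ κ) : RGe θ := by
  intro ε hε
  obtain ⟨hanti, K, hK, hb⟩ := hP
  set s := (κ - θ) / (1 - θ) with hs
  have hθ1 : 0 < 1 - θ := by linarith
  have hκ1 : 0 < 1 - κ := by linarith
  have hs0 : 0 < s := div_pos (by linarith) hθ1
  have hs1 : 1 - s = (1 - κ) / (1 - θ) := exp_eq (by linarith)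
  set η := min (s / 2) (ε * (1 - κ) / 2) with hη
  have hη0 : 0 < η := lt_min (by linarith) (by positivity)
  have hηs : η ≤ s / 2 := min_le_left _ _
  have hηε : η ≤ ε * (1 - κ) / 2 := min_le_right _ _
  have h1 := hT η hη0
  have h3 := ev_log (2 * K) 0 (show 0 < s - η by linarith)
  have h4 := ev_pow 5 hκ
  have h5 : ∀ᶠ n : ℕ in atTop, 1 * (n : ℝ) ^ (0 : ℝ) ≤ (n : ℝ) ^ κ := ev_pow 1 (by linarith)
  -- the rate function at the points `4 n ^ (κ - 1)`
  have hA : ∀ᶠ n : ℕ in atTop, 4 * (n : ℝ) ^ (κ - 1) ≤ 1 ∧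
      (n : ℝ) ^ (s - 1 - η) / 4 ≤ R (4 * (n : ℝ) ^ (κ - 1)) := by
    filter_upwards [h1, h3, h4, h5, eventually_ge_atTop 2] with n g1 g3 g4 g5 hn
    have hn0 : (0 : ℝ) < n := by
      have : (0 : ℕ) < n := by omega
      exact_mod_cast this
    rw [Real.rpow_one] at g4
    rw [Real.rpow_zero, mul_one] at g5
    have hq : (n : ℝ) ^ (κ - 1) = (n : ℝ) ^ κ / n := Real.rpow_sub_one hn0.ne' _
    rw [hq]
    set x := (n : ℝ) ^ κ with hx
    have hx0 : 0 < x := Real.rpow_pos_of_pos hn0 _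
    obtain ⟨k, hk⟩ : ∃ k, k = ⌈x⌉₊ := ⟨_, rfl⟩
    have hkx : x ≤ (k : ℝ) := by rw [hk]; exact Nat.le_ceil x
    have hkx2 : (k : ℝ) < x + 1 := by rw [hk]; exact Nat.ceil_lt_add_one hx0.le
    have hk1 : 1 ≤ k := by
      have : (0 : ℝ) < (k : ℝ) := by linarith
      exact_mod_cast this
    have hk2 : 2 * k < n := by
      have : (2 : ℝ) * k < n := by linarith
      exact_mod_cast this
    have e0 : 4 * (x / n) ≤ 1 := by
      rw [mul_div_assoc', div_le_one hn0]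
      linarith
    refine ⟨e0, ?_⟩
    have e1 := hanti n (by omega) x k hx0.le hkx
    have e2 := (hb n hn k hk1 hk2).1
    have e3 := Real.exp_le_exp.1 ((e2.trans e1).trans g1)
    have e4 : R (2 * k / n) ≤ R (4 * (x / n)) := by
      refine R_mono (by positivity) ?_ e0
      rw [mul_div_assoc']
      apply div_le_div_of_nonneg_right _ hn0.le
      linarith
    have e5 : (n : ℝ) ^ (s - 1 - η) * n = (n : ℝ) ^ (s - η) := by
      nth_rewrite 2 [← Real.rpow_one (n : ℝ)]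
      rw [← Real.rpow_add hn0]
      congr 1
      ring
    have e6 : (n : ℝ) ^ (s - 1 - η) * n ≤ (4 * R (4 * (x / n))) * n := by
      rw [e5]
      have e7 : n * R (2 * k / n) ≤ n * R (4 * (x / n)) := mul_le_mul_of_nonneg_left e4 hn0.le
      linarith
    have e8 := le_of_mul_le_mul_right e6 hn0
    linarith
  obtain ⟨N, hN⟩ := eventually_atTop.1 hA
  set M : ℕ := max N 1 with hM
  have hM1 : (1 : ℝ) ≤ M := by
    have : 1 ≤ M := le_max_right _ _
    exact_mod_cast this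
  have hM0 : (0 : ℝ) < M := by linarith
  set b := 1 - s + η with hbd
  have hb0 : 0 < b := by
    rw [hbd, hs1]
    positivity
  have hbk : b / (1 - κ) = 1 / (1 - θ) + η / (1 - κ) := by
    rw [hbd, hs1]
    field_simp
  have hlt : b / (1 - κ) < 1 / (1 - θ) + ε := by
    rw [hbk]
    have : η / (1 - κ) ≤ ε / 2 := by
      rw [div_le_iff₀ hκ1]
      linarith
    linarith
  set c : ℝ := 4 * 2 ^ b * 4 ^ (b / (1 - κ)) with hc
  have hc0 : 0 < c := by positivity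
  have hsm := ev_small c hlt
  have ht0 : (0 : ℝ) < min 1 (4 * (M : ℝ) ^ (κ - 1)) := by
    apply lt_min one_pos
    have := Real.rpow_pos_of_pos hM0 (κ - 1)
    positivity
  filter_upwards [hsm, Ioo_mem_nhdsGT ht0] with u g1 hu
  have hu0 : 0 < u := hu.1
  have hu1 : u < 1 := hu.2.trans_le (min_le_left _ _)
  have hu2 : u < 4 * (M : ℝ) ^ (κ - 1) := hu.2.trans_le (min_le_right _ _)
  set x := (u / 4) ^ (-(1 / (1 - κ))) with hx
  have hu4 : 0 < u / 4 := by positivity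
  have hx0 : 0 < x := Real.rpow_pos_of_pos hu4 _
  have hxk : x ^ (κ - 1) = u / 4 := by
    rw [hx, ← Real.rpow_mul hu4.le]
    have : -(1 / (1 - κ)) * (κ - 1) = 1 := by
      field_simp
      ring
    rw [this, Real.rpow_one]
  have hMx : (M : ℝ) ≤ x := by
    by_contra hcon
    have h6 : (M : ℝ) ^ (κ - 1) < x ^ (κ - 1) :=
      Real.rpow_lt_rpow_of_neg hx0 (not_le.1 hcon) (by linarith)
    rw [hxk] at h6
    linarith
  obtain ⟨n, hn⟩ : ∃ n, n = ⌈x⌉₊ := ⟨_, rfl⟩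
  have hnx : x ≤ (n : ℝ) := by rw [hn]; exact Nat.le_ceil x
  have hnx2 : (n : ℝ) < x + 1 := by rw [hn]; exact Nat.ceil_lt_add_one hx0.le
  have hnM : M ≤ n := by
    have : (M : ℝ) ≤ n := hMx.trans hnx
    exact_mod_cast this
  have hn0 : (0 : ℝ) < n := by linarith
  obtain ⟨f1, f2⟩ := hN n ((le_max_left _ _).trans hnM)
  have f3 : 4 * (n : ℝ) ^ (κ - 1) ≤ u := by
    have : (n : ℝ) ^ (κ - 1) ≤ x ^ (κ - 1) :=
      Real.rpow_le_rpow_of_nonpos hx0 hnx (by linarith)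
    rw [hxk] at this
    linarith
  have f4 : R (4 * (n : ℝ) ^ (κ - 1)) ≤ R u := R_mono (by positivity) f3 hu1.le
  have f5 : (2 * x) ^ (-b) ≤ (n : ℝ) ^ (s - 1 - η) := by
    have e : s - 1 - η = -b := by rw [hbd]; ring
    rw [e]
    exact Real.rpow_le_rpow_of_nonpos hn0 (by linarith) (by linarith)
  have f6 : (2 * x) ^ (-b) = u ^ (b / (1 - κ)) / (2 ^ b * 4 ^ (b / (1 - κ))) := by
    have e1 : x ^ (-b) = (u / 4) ^ (b / (1 - κ)) := by
      rw [hx, ← Real.rpow_mul hu4.le]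
      congr 1
      field_simp
    rw [Real.mul_rpow (by norm_num) hx0.le, e1, Real.div_rpow hu0.le (by norm_num),
      Real.rpow_neg (by norm_num)]
    field_simp
  have hD : (0 : ℝ) < 2 ^ b * 4 ^ (b / (1 - κ)) := by positivity
  have f7 : u ^ (1 / (1 - θ) + ε) ≤ u ^ (b / (1 - κ)) / (2 ^ b * 4 ^ (b / (1 - κ))) / 4 := by
    rw [div_div, le_div_iff₀ (by positivity)]
    calc u ^ (1 / (1 - θ) + ε) * (2 ^ b * 4 ^ (b / (1 - κ)) * 4)
        = c * u ^ (1 / (1 - θ) + ε) := by rw [hc]; ring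
      _ ≤ _ := g1
  calc u ^ (1 / (1 - θ) + ε) ≤ u ^ (b / (1 - κ)) / (2 ^ b * 4 ^ (b / (1 - κ))) / 4 := f7
    _ ≤ (n : ℝ) ^ (s - 1 - η) / 4 := by
        rw [← f6]
        exact div_le_div_of_nonneg_right f5 (by norm_num)
    _ ≤ R (4 * (n : ℝ) ^ (κ - 1)) := f2
    _ ≤ R u := f4

end ModC

/-- Module C -/
theorem stmC : StmC := fun P hP θ κ hθ hθκ hκ =>
  ⟨ModC.mp P hP θ κ hθ hθκ hκ, ModC.mpr P hP θ κ hθ hθκ hκ⟩

end Pool.Agent.T6.H53.FR
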