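import Pool.Agent.T6.H53.FR.Defs

/-!
Fisher's relation: module D, the upper bound of the rate function and the lower bound of the tails
(helper38).
-/

set_option autoImplicit false

namespace Pool.Agent.T6.H53.FR.ModD

open Pool.Agent.TH795.EP Pool.Agent.TH795.EP2 Pool.Agent.TH795.SE2 Pool.Agent.TH262.SawL
  Pool.Agent.Y981.L2 H981 Finset Filter Topology Pool.Agent.T6.H53.WL Pool.Agent.T6.H53.AL

theorem fwd (R : ℝ → ℝ) (P : ℕ → ℝ → ℝ)
    (hanti : ∀ n : ℕ, 1 ≤ n → ∀ r s : ℝ, 0 ≤ r → r ≤ s → P n s ≤ P n r)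
    (K : ℝ) (hK : ∀ n : ℕ, 2 ≤ n → ∀ k : ℕ, 1 ≤ k → 2 * k < n →
      Real.exp (-(2 * n * R (2 * k / n)) - K * Real.log n ^ 2) ≤ P n k)
    (θ κ : ℝ) (hθ : 0 < θ) (hθκ : θ < κ) (hκ : κ < 1)
    (hR : ∀ ε : ℝ, 0 < ε → ∀ᶠ u in 𝓝[>] (0 : ℝ), R u ≤ u ^ (1 / (1 - θ) - ε)) :
    ∀ ε : ℝ, 0 < ε → ∀ᶠ n : ℕ in atTop,
      Real.exp (-(n : ℝ) ^ ((κ - θ) / (1 - θ) + ε)) ≤ P n ((n : ℝ) ^ κ) := by
  intro ε hε
  have hθ1 : 0 < 1 - θ := by linarith
  have hκ1 : 0 < 1 - κ := by linarith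
  set s : ℝ := (κ - θ) / (1 - θ) with hs
  have hs0 : 0 < s := div_pos (by linarith) hθ1
  obtain ⟨ε', hε', hε'1, hε'2⟩ : ∃ ε' : ℝ, 0 < ε' ∧ ε' ≤ 1 / 2 ∧ (1 - κ) * ε' ≤ ε / 2 := by
    refine ⟨min (1 / 2) (ε / (2 * (1 - κ))), lt_min (by norm_num) (by positivity),
      min_le_left _ _, ?_⟩
    calc (1 - κ) * min (1 / 2) (ε / (2 * (1 - κ))) ≤ (1 - κ) * (ε / (2 * (1 - κ))) :=
          mul_le_mul_of_nonneg_left (min_le_right _ _) hκ1.le
      _ = ε / 2 := by field_simp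
  set p : ℝ := 1 / (1 - θ) - ε' with hp
  have hinv : 1 ≤ 1 / (1 - θ) := by
    rw [le_div_iff₀ hθ1]; linarith
  have hp0 : 0 < p := by rw [hp]; linarith
  have hexp : 1 + (κ - 1) * p ≤ s + ε / 2 := by
    have e1 : 1 + (κ - 1) * p = s + (1 - κ) * ε' := by
      rw [hp, hs]; field_simp; ring
    rw [e1]; linarith
  obtain ⟨δ, hδ, hδR⟩ : ∃ δ : ℝ, 0 < δ ∧ ∀ u : ℝ, 0 < u → u < δ → R u ≤ u ^ p := by
    have h1 := hR ε' hε'
    rw [eventually_nhdsWithin_iff, Metric.eventually_nhds_iff] at h1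
    obtain ⟨δ, hδ, h2⟩ := h1
    refine ⟨δ, hδ, fun u hu hu1 => h2 ?_ hu⟩
    rw [Real.dist_eq, sub_zero, abs_of_pos hu]
    exact hu1
  set C : ℝ := 2 * (4 : ℝ) ^ p with hC
  have ev1 := ev_pow (5 : ℝ) (show κ < 1 from hκ)
  have ev2 := ev_pow (8 / δ) (show κ - 1 < 0 by linarith)
  have ev3 := ev_pow (2 * C) (show s + ε / 2 < s + ε by linarith)
  have ev4 := ev_log (2 * K) 0 (show 0 < s + ε by linarith)
  filter_upwards [ev1, ev2, ev3, ev4, eventually_ge_atTop 2] with n h1 h2 h3 h4 hn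
  have hn1 : (1 : ℝ) ≤ n := by exact_mod_cast (by omega : 1 ≤ n)
  have hn0 : (0 : ℝ) < n := by linarith
  have hx1 : 1 ≤ (n : ℝ) ^ κ := Real.one_le_rpow hn1 (by linarith)
  rw [Real.rpow_one] at h1
  rw [Real.rpow_zero] at h2
  set k : ℕ := ⌈(n : ℝ) ^ κ⌉₊ with hk
  have hk1 : (n : ℝ) ^ κ ≤ k := Nat.le_ceil _
  have hk2 : (k : ℝ) < (n : ℝ) ^ κ + 1 := Nat.ceil_lt_add_one (by linarith)
  have hk3 : (k : ℝ) ≤ 2 * (n : ℝ) ^ κ := by linarith
  have hkpos : 1 ≤ k := by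
    have : (1 : ℝ) ≤ k := by linarith
    exact_mod_cast this
  have hkn : 2 * k < n := by
    have : (2 : ℝ) * k < n := by linarith
    exact_mod_cast this
  have hu0 : 0 < 2 * (k : ℝ) / n := by positivity
  have hu1 : 2 * (k : ℝ) / n ≤ 4 * (n : ℝ) ^ (κ - 1) := by
    rw [Real.rpow_sub hn0, Real.rpow_one, div_le_iff₀ hn0]
    calc 2 * (k : ℝ) ≤ 4 * (n : ℝ) ^ κ := by linarith
      _ = 4 * ((n : ℝ) ^ κ / n) * n := by field_simp
  have hxp : 0 < (n : ℝ) ^ (κ - 1) := Real.rpow_pos_of_pos hn0 _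
  have hu2 : 2 * (k : ℝ) / n < δ := by
    rw [div_mul_eq_mul_div, div_le_iff₀ hδ] at h2
    linarith
  have hRu := hδR _ hu0 hu2
  have hRu2 : (2 * (k : ℝ) / n) ^ p ≤ (4 : ℝ) ^ p * (n : ℝ) ^ ((κ - 1) * p) := by
    calc (2 * (k : ℝ) / n) ^ p ≤ (4 * (n : ℝ) ^ (κ - 1)) ^ p :=
          Real.rpow_le_rpow hu0.le hu1 hp0.le
      _ = _ := by rw [Real.mul_rpow (by norm_num) hxp.le, ← Real.rpow_mul hn0.le]
  have h5 : 2 * n * R (2 * k / n) ≤ C * (n : ℝ) ^ (s + ε / 2) := by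
    calc 2 * n * R (2 * k / n) ≤ 2 * n * ((4 : ℝ) ^ p * (n : ℝ) ^ ((κ - 1) * p)) :=
          mul_le_mul_of_nonneg_left (hRu.trans hRu2) (by positivity)
      _ = C * (n : ℝ) ^ (1 + (κ - 1) * p) := by
          rw [Real.rpow_add hn0, Real.rpow_one, hC]; ring
      _ ≤ _ := mul_le_mul_of_nonneg_left (Real.rpow_le_rpow_of_exponent_le hn1 hexp)
          (by positivity)
  calc Real.exp (-(n : ℝ) ^ (s + ε)) ≤
        Real.exp (-(2 * n * R (2 * k / n)) - K * Real.log n ^ 2) := by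
        apply Real.exp_le_exp.2
        linarith
    _ ≤ P n k := hK n hn k hkpos hkn
    _ ≤ P n ((n : ℝ) ^ κ) := hanti n (by omega) _ _ (by linarith) hk1

theorem bwd (R : ℝ → ℝ) (hRm : ∀ v v' : ℝ, 0 ≤ v → v ≤ v' → v' ≤ 1 → R v ≤ R v')
    (P : ℕ → ℝ → ℝ)
    (hanti : ∀ n : ℕ, 1 ≤ n → ∀ r s : ℝ, 0 ≤ r → r ≤ s → P n s ≤ P n r)
    (K : ℝ) (hK : ∀ n : ℕ, 2 ≤ n → ∀ k : ℕ, 1 ≤ k → 2 * k < n →
      P n k ≤ Real.exp (-(2 * n * R (k / n)) + K * Real.log n ^ 2))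
    (θ κ : ℝ) (hθ : 0 < θ) (hθκ : θ < κ) (hκ : κ < 1)
    (hT : ∀ ε : ℝ, 0 < ε → ∀ᶠ n : ℕ in atTop,
      Real.exp (-(n : ℝ) ^ ((κ - θ) / (1 - θ) + ε)) ≤ P n ((n : ℝ) ^ κ)) :
    ∀ ε : ℝ, 0 < ε → ∀ᶠ u in 𝓝[>] (0 : ℝ), R u ≤ u ^ (1 / (1 - θ) - ε) := by
  intro ε hε
  have hθ1 : 0 < 1 - θ := by linarith
  have hκ1 : 0 < 1 - κ := by linarith
  set s : ℝ := (κ - θ) / (1 - θ) with hs
  have hs0 : 0 < s := div_pos (by linarith) hθ1
  have hs1 : 1 - s = (1 - κ) / (1 - θ) := by rw [hs]; field_simp; ring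
  have hs2 : 0 < 1 - s := by rw [hs1]; positivity
  obtain ⟨e, he, he1, he2⟩ : ∃ e : ℝ, 0 < e ∧ e < 1 - s ∧ e < ε * (1 - κ) := by
    have h1 : 0 < min (1 - s) (ε * (1 - κ)) := lt_min hs2 (by positivity)
    refine ⟨min (1 - s) (ε * (1 - κ)) / 2, by linarith, ?_, ?_⟩
    · have := min_le_left (1 - s) (ε * (1 - κ)); linarith
    · have := min_le_right (1 - s) (ε * (1 - κ)); linarith
  set q : ℝ := 1 - s - e with hq
  have hq0 : 0 < q := by rw [hq]; linarith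
  have ev1 := ev_pow (2 : ℝ) (show κ < 1 from hκ)
  have ev4 := ev_log K 0 (show 0 < s + e by linarith)
  -- integers
  have key : ∀ᶠ n : ℕ in atTop, R ((n : ℝ) ^ (κ - 1) / 2) ≤ (n : ℝ) ^ (-q) := by
    have ev5 := ev_pow (3 : ℝ) (show κ < 1 from hκ)
    filter_upwards [hT e he, ev5, ev4, eventually_ge_atTop 2] with n h1 h2 h3 hn
    have hn1 : (1 : ℝ) ≤ n := by exact_mod_cast (by omega : 1 ≤ n)
    have hn0 : (0 : ℝ) < n := by linarith
    have hx1 : 1 ≤ (n : ℝ) ^ κ := Real.one_le_rpow hn1 (by linarith)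
    rw [Real.rpow_one] at h2
    set k : ℕ := ⌊(n : ℝ) ^ κ⌋₊ with hk
    have hk1 : (k : ℝ) ≤ (n : ℝ) ^ κ := Nat.floor_le (by linarith)
    have hk2 : (n : ℝ) ^ κ < k + 1 := Nat.lt_floor_add_one _
    have hkpos : 1 ≤ k := Nat.le_floor (by simpa using hx1)
    have hkpos' : (1 : ℝ) ≤ k := by exact_mod_cast hkpos
    have hkn : 2 * k < n := by
      have : (2 : ℝ) * k < n := by linarith
      exact_mod_cast this
    have h4 : Real.exp (-(n : ℝ) ^ (s + e)) ≤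
        Real.exp (-(2 * n * R (k / n)) + K * Real.log n ^ 2) :=
      h1.trans ((hanti n (by omega) _ _ (by linarith) hk1).trans (hK n hn k hkpos hkn))
    rw [Real.exp_le_exp] at h4
    have h5 : 2 * n * R (k / n) ≤ 2 * (n : ℝ) ^ (s + e) := by linarith
    have h6 : R (k / n) ≤ (n : ℝ) ^ (-q) := by
      have e1 : (n : ℝ) ^ (-q) = (n : ℝ) ^ (s + e) / n := by
        have : -q = (s + e) - 1 := by rw [hq]; ring
        rw [this, Real.rpow_sub hn0, Real.rpow_one]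
      rw [e1, le_div_iff₀ hn0]
      linarith
    refine le_trans (hRm _ _ (by positivity) ?_ ?_) h6
    · rw [Real.rpow_sub hn0, Real.rpow_one, div_div, div_le_div_iff₀ (by positivity) hn0]
      have : (n : ℝ) ^ κ ≤ 2 * k := by linarith
      calc (n : ℝ) ^ κ * n ≤ 2 * k * n := mul_le_mul_of_nonneg_right this hn0.le
        _ = k * (n * 2) := by ring
    · rw [div_le_one hn0]
      linarith
  set a : ℝ := 1 / (1 - κ) with ha
  have ha0 : 0 < a := by positivity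
  obtain ⟨N, hN⟩ := eventually_atTop.1 key
  set C : ℝ := (2 : ℝ) ^ q * (2 : ℝ) ^ (a * q) with hC
  have hexp : 1 / (1 - θ) - ε < a * q := by
    have e1 : a * q = 1 / (1 - θ) - e / (1 - κ) := by
      rw [ha, hq, hs1]; field_simp
    have e2 : e / (1 - κ) < ε := by rw [div_lt_iff₀ hκ1]; exact he2
    rw [e1]; linarith
  have ev6 := ev_small C hexp
  have ev7 : ∀ᶠ u in 𝓝[>] (0 : ℝ), (N : ℝ) + 2 ≤ (2 * u) ^ (-a) := by
    have h1 : Tendsto (fun u : ℝ => (2 * u) ^ (-a)) (𝓝[>] 0) atTop := by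
      have h2 : Tendsto (fun u : ℝ => (u⁻¹ / 2) ^ a) (𝓝[>] 0) atTop :=
        (tendsto_rpow_atTop ha0).comp
          ((tendsto_inv_nhdsGT_zero (𝕜 := ℝ)).atTop_div_const (by norm_num))
      refine h2.congr' ?_
      filter_upwards [self_mem_nhdsWithin] with u hu
      have hu0 : 0 < u := hu
      rw [Real.rpow_neg (by positivity), ← Real.inv_rpow (by positivity)]
      congr 1
      rw [mul_inv]; ring
    exact h1.eventually_ge_atTop _
  filter_upwards [ev6, ev7, self_mem_nhdsWithin] with u h1 h2 hu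
  have hu0 : 0 < u := hu
  set x : ℝ := (2 * u) ^ (-a) with hx
  have hx0 : 0 < x := Real.rpow_pos_of_pos (by positivity) _
  set n : ℕ := ⌊x⌋₊ with hn
  have hn1 : (n : ℝ) ≤ x := Nat.floor_le hx0.le
  have hn2 : x < n + 1 := Nat.lt_floor_add_one _
  have hNn : N ≤ n := by
    have : (N : ℝ) < n := by linarith
    exact_mod_cast this.le
  have hn3 : (1 : ℝ) ≤ n := by
    have : (0 : ℝ) ≤ N := Nat.cast_nonneg N
    linarith
  have hn0 : (0 : ℝ) < n := by linarith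
  have hxk : x ^ (κ - 1) = 2 * u := by
    rw [hx, ← Real.rpow_mul (by positivity)]
    have : -a * (κ - 1) = 1 := by rw [ha]; field_simp; ring
    rw [this, Real.rpow_one]
  have h3 : u ≤ (n : ℝ) ^ (κ - 1) / 2 := by
    have : x ^ (κ - 1) ≤ (n : ℝ) ^ (κ - 1) :=
      Real.rpow_le_rpow_of_nonpos hn0 hn1 (by linarith)
    linarith
  have h4 : (n : ℝ) ^ (κ - 1) / 2 ≤ 1 := by
    have : (n : ℝ) ^ (κ - 1) ≤ 1 := Real.rpow_le_one_of_one_le_of_nonpos hn3 (by linarith)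
    linarith
  have h5 : x / 2 ≤ n := by linarith
  have h6 : (n : ℝ) ^ (-q) ≤ C * u ^ (a * q) := by
    calc (n : ℝ) ^ (-q) ≤ (x / 2) ^ (-q) :=
          Real.rpow_le_rpow_of_nonpos (by positivity) h5 (by linarith)
      _ = C * u ^ (a * q) := by
          rw [Real.div_rpow hx0.le (by norm_num), hx, ← Real.rpow_mul (by positivity),
            Real.rpow_neg (by norm_num : (0 : ℝ) ≤ 2) q, hC]
          have : -a * -q = a * q := by ring
          rw [this, Real.mul_rpow (by norm_num) hu0.le]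
          field_simp
  calc R u ≤ R ((n : ℝ) ^ (κ - 1) / 2) := hRm _ _ hu0.le h3 h4
    _ ≤ (n : ℝ) ^ (-q) := hN n hNn
    _ ≤ C * u ^ (a * q) := h6
    _ ≤ u ^ (1 / (1 - θ) - ε) := h1

end Pool.Agent.T6.H53.FR.ModD

namespace Pool.Agent.T6.H53.FR

open Pool.Agent.TH795.EP Pool.Agent.TH795.EP2 Pool.Agent.TH795.SE2 Pool.Agent.TH262.SawL
  Pool.Agent.Y981.L2 H981 Finset Filter Topology Pool.Agent.T6.H53.WL Pool.Agent.T6.H53.AL

/-- Module D -/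
theorem stmD : StmD := by
  intro P hP θ κ hθ hθκ hκ
  obtain ⟨hanti, K, _, hlu⟩ := hP
  constructor
  · intro hR
    exact ModD.fwd R P hanti K (fun n hn k hk hkn => (hlu n hn k hk hkn).1) θ κ hθ hθκ hκ hR
  · intro hT
    exact ModD.bwd R (fun v v' h0 h1 h2 => R_mono h0 h1 h2) P hanti K
      (fun n hn k hk hkn => (hlu n hn k hk hkn).2) θ κ hθ hθκ hκ hT

end Pool.Agent.T6.H53.FR
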