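import Pool.Agent.T6.H53.FR.Defs

/-!
Fisher's relation: module T, the tails of the width and of the area (helper38).
-/

set_option autoImplicit false

namespace Pool.Agent.T6.H53.FR

open Pool.Agent.TH795.EP Pool.Agent.TH795.EP2 Pool.Agent.TH795.SE2 Pool.Agent.TH262.SawL
  Pool.Agent.Y981.L2 H981 Finset Filter Topology Pool.Agent.T6.H53.WL Pool.Agent.T6.H53.AL

/-- Module T: the tails of the width and of the area -/
theorem stmT : StmT := by
  constructor
  · refine ⟨fun n hn r s _ h => pw_anti hn h, ?_⟩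
    obtain ⟨K, hK, h⟩ := pw_ldp
    refine ⟨K, hK, fun n hn k hk hkn => ?_⟩
    obtain ⟨h1, h2⟩ := h n hn k hk (by omega)
    have hn0 : (0 : ℝ) < n := by exact_mod_cast (by omega : 0 < n)
    have hk0 : (0 : ℝ) ≤ k := Nat.cast_nonneg k
    have hkn' : 2 * (k : ℝ) ≤ n := by exact_mod_cast hkn.le
    constructor
    · refine le_trans ?_ h1
      apply Real.exp_le_exp.2
      have e1 : (k : ℝ) / n ≤ 2 * k / n := by
        apply div_le_div_of_nonneg_right _ hn0.le
        linarith
      have e2 : 2 * (k : ℝ) / n ≤ 1 := by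
        rw [div_le_one hn0]
        exact hkn'
      have hR : R ((k : ℝ) / n) ≤ R (2 * k / n) := R_mono (by positivity) e1 e2
      have hR2 : (n : ℝ) * R ((k : ℝ) / n) ≤ n * R (2 * k / n) :=
        mul_le_mul_of_nonneg_left hR hn0.le
      linarith
    · refine h2.trans (le_of_eq ?_)
      congr 1
      ring
  · refine ⟨fun n hn r s hr h => par_anti hn (pow_le_pow_left₀ hr h 2), ?_⟩
    exact par_rate

end Pool.Agent.T6.H53.FR
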