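import Pool.Agent.T6.H53.AL.Area2

/-!
Fisher's relation between the exponent of the correlation length and the exponents of the large
deviations of the planar self-avoiding polygons: definitions and statements of the modules.
-/

set_option autoImplicit false

namespace Pool.Agent.T6.H53.FR

open Pool.Agent.TH795.EP Pool.Agent.TH795.EP2 Pool.Agent.TH795.SE2 Pool.Agent.TH262.SawL
  Pool.Agent.Y981.L2 H981 Finset Filter Topology Pool.Agent.T6.H53.WL Pool.Agent.T6.H53.AL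

/-- the rate function is at least `u ^ (1 / (1 - θ) + o(1))` -/
def RGe (θ : ℝ) : Prop := ∀ ε : ℝ, 0 < ε → ∀ᶠ u in 𝓝[>] (0 : ℝ), u ^ (1 / (1 - θ) + ε) ≤ R u

/-- the rate function is at most `u ^ (1 / (1 - θ) - o(1))` -/
def RLe (θ : ℝ) : Prop := ∀ ε : ℝ, 0 < ε → ∀ᶠ u in 𝓝[>] (0 : ℝ), R u ≤ u ^ (1 / (1 - θ) - ε)

/-- a tail function with the rate function `R` up to a factor two in the argument -/
def Tl (P : ℕ → ℝ → ℝ) : Prop :=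
  (∀ n : ℕ, 1 ≤ n → ∀ r s : ℝ, 0 ≤ r → r ≤ s → P n s ≤ P n r) ∧
  ∃ K : ℝ, 0 ≤ K ∧ ∀ n : ℕ, 2 ≤ n → ∀ k : ℕ, 1 ≤ k → 2 * k < n →
    Real.exp (-(2 * n * R (2 * k / n)) - K * Real.log n ^ 2) ≤ P n k ∧
    P n k ≤ Real.exp (-(2 * n * R (k / n)) + K * Real.log n ^ 2)

/-- `- log P n (n ^ κ)` is at least `n ^ ((κ - θ) / (1 - θ) - o(1))` -/
def TGe (P : ℕ → ℝ → ℝ) (θ κ : ℝ) : Prop := ∀ ε : ℝ, 0 < ε → ∀ᶠ n : ℕ in atTop,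
  P n ((n : ℝ) ^ κ) ≤ Real.exp (-(n : ℝ) ^ ((κ - θ) / (1 - θ) - ε))

/-- `- log P n (n ^ κ)` is at most `n ^ ((κ - θ) / (1 - θ) + o(1))` -/
def TLe (P : ℕ → ℝ → ℝ) (θ κ : ℝ) : Prop := ∀ ε : ℝ, 0 < ε → ∀ᶠ n : ℕ in atTop,
  Real.exp (-(n : ℝ) ^ ((κ - θ) / (1 - θ) + ε)) ≤ P n ((n : ℝ) ^ κ)

/-- Module A -/
def StmA : Prop := ∀ θ : ℝ, 0 < θ → θ < 1 → (MassLow θ ↔ RGe θ)

/-- Module B -/
def StmB : Prop := ∀ θ : ℝ, 0 < θ → θ < 1 → (MassUp θ ↔ RLe θ)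

/-- Module C -/
def StmC : Prop := ∀ P : ℕ → ℝ → ℝ, Tl P → ∀ θ κ : ℝ, 0 < θ → θ < κ → κ < 1 →
  (RGe θ ↔ TGe P θ κ)

/-- Module D -/
def StmD : Prop := ∀ P : ℕ → ℝ → ℝ, Tl P → ∀ θ κ : ℝ, 0 < θ → θ < κ → κ < 1 →
  (RLe θ ↔ TLe P θ κ)

/-- Module T: the tails of the width and of the area -/
def StmT : Prop := Tl pw ∧ Tl (fun n r => par n (r ^ 2))

end Pool.Agent.T6.H53.FR
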