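import Pool.Agent.T6.H53.FR.Defs
import Pool.Agent.T6.H53.WL.Tail
import Pool.Agent.Y981.L2.Xi

/-!
Fisher's relation for the large deviations of the planar self-avoiding polygons: assembly.
-/

set_option autoImplicit false

namespace Pool.Agent.T6.H53.FR

open Pool.Agent.TH795.EP Pool.Agent.TH795.EP2 Pool.Agent.TH795.SE2 Pool.Agent.TH262.SawL
  Pool.Agent.Y981.L2 H981 Finset Filter Topology Pool.Agent.T6.H53.WL Pool.Agent.T6.H53.AL

/-- the correlation length is at most `(1/μ - z)^(-(θ + o(1)))` -/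
def XUp (θ : ℝ) : Prop := ∀ ε : ℝ, 0 < ε → ∀ᶠ z in 𝓝[<] (1 / mu),
  xi z ≤ (1 / mu - z) ^ (-(θ + ε))

/-- the correlation length is at least `(1/μ - z)^(-(θ - o(1)))` -/
def XLo (θ : ℝ) : Prop := ∀ ε : ℝ, 0 < ε → ∀ᶠ z in 𝓝[<] (1 / mu),
  (1 / mu - z) ^ (-(θ - ε)) ≤ xi z

/-- the tail function of the square root of the area -/
noncomputable def pa (n : ℕ) (r : ℝ) : ℝ := par n (r ^ 2)

theorem upper_tfae (hA : StmA) (hC : StmC) (hT : StmT) {θ κ : ℝ} (h0 : 0 < θ) (h1 : θ < κ)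
    (h2 : κ < 1) : List.TFAE [XUp θ, RGe θ, TGe pa θ κ, TGe pw θ κ] := by
  have e1 : XUp θ ↔ RGe θ := (xi_upper θ h0).symm.trans (hA θ h0 (h1.trans h2))
  have e2 := hC pa hT.2 θ κ h0 h1 h2
  have e3 := hC pw hT.1 θ κ h0 h1 h2
  tfae_have 1 ↔ 2 := e1
  tfae_have 2 ↔ 3 := e2
  tfae_have 2 ↔ 4 := e3
  tfae_finish

theorem lower_tfae (hB : StmB) (hD : StmD) (hT : StmT) {θ κ : ℝ} (h0 : 0 < θ) (h1 : θ < κ)
    (h2 : κ < 1) : List.TFAE [XLo θ, RLe θ, TLe pa θ κ, TLe pw θ κ] := by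
  have e1 : XLo θ ↔ RLe θ := (xi_lower θ h0).symm.trans (hB θ h0 (h1.trans h2))
  have e2 := hD pa hT.2 θ κ h0 h1 h2
  have e3 := hD pw hT.1 θ κ h0 h1 h2
  tfae_have 1 ↔ 2 := e1
  tfae_have 2 ↔ 3 := e2
  tfae_have 2 ↔ 4 := e3
  tfae_finish

/-- a quotient converges iff the numerator is between multiples of the denominator -/
theorem tendsto_iff {α : Type*} {l : Filter α} {g h : α → ℝ} (hg : Tendsto g l atTop) (s : ℝ) :
    Tendsto (fun t => h t / g t) l (𝓝 s) ↔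
      (∀ ε : ℝ, 0 < ε → ∀ᶠ t in l, h t ≤ (s + ε) * g t) ∧
      ∀ ε : ℝ, 0 < ε → ∀ᶠ t in l, (s - ε) * g t ≤ h t := by
  have hg0 := hg.eventually_gt_atTop 0
  constructor
  · intro H
    constructor
    · intro ε hε
      filter_upwards [H.eventually (ge_mem_nhds (show s < s + ε by linarith)), hg0] with t h1 h2
      rwa [div_le_iff₀ h2] at h1
    · intro ε hε
      filter_upwards [H.eventually (le_mem_nhds (show s - ε < s by linarith)), hg0] with t h1 h2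
      rwa [le_div_iff₀ h2] at h1
  · rintro ⟨H1, H2⟩
    rw [tendsto_order]
    constructor
    · intro a ha
      filter_upwards [H2 ((s - a) / 2) (by linarith), hg0] with t h1 h2
      rw [lt_div_iff₀ h2]
      nlinarith
    · intro a ha
      filter_upwards [H1 ((a - s) / 2) (by linarith), hg0] with t h1 h2
      rw [div_lt_iff₀ h2]
      nlinarith

theorem log_le_rpow_iff {f t s : ℝ} (hf : 0 < f) (ht : 0 < t) :
    Real.log f ≤ s * Real.log (1 / t) ↔ f ≤ t ^ (-s) := by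
  have h1 : s * Real.log (1 / t) = Real.log (t ^ (-s)) := by
    rw [Real.log_rpow ht, one_div, Real.log_inv]
    ring
  rw [h1, Real.log_le_log_iff hf (Real.rpow_pos_of_pos ht _)]

theorem rpow_le_log_iff {f t s : ℝ} (hf : 0 < f) (ht : 0 < t) :
    s * Real.log (1 / t) ≤ Real.log f ↔ t ^ (-s) ≤ f := by
  have h1 : s * Real.log (1 / t) = Real.log (t ^ (-s)) := by
    rw [Real.log_rpow ht, one_div, Real.log_inv]
    ring
  rw [h1, Real.log_le_log_iff (Real.rpow_pos_of_pos ht _) hf]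

theorem tendsto_log_inv : Tendsto (fun t : ℝ => Real.log (1 / t)) (𝓝[>] 0) atTop := by
  have h1 : Tendsto (fun t : ℝ => 1 / t) (𝓝[>] 0) atTop := by
    simpa [one_div] using tendsto_inv_nhdsGT_zero (𝕜 := ℝ)
  exact Real.tendsto_log_atTop.comp h1

/-- the exponent of the correlation length -/
theorem xi_lim (θ : ℝ) : Tendsto (fun z : ℝ => Real.log (xi z) / Real.log (1 / (1 / mu - z)))
    (𝓝[<] (1 / mu)) (𝓝 θ) ↔ XUp θ ∧ XLo θ := by
  have hmu := mu_pos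
  have hg : Tendsto (fun z : ℝ => Real.log (1 / (1 / mu - z))) (𝓝[<] (1 / mu)) atTop :=
    tendsto_log_inv.comp tendsto_t
  have hz : ∀ᶠ z in 𝓝[<] (1 / mu), 0 < xi z ∧ 0 < 1 / mu - z := by
    have h3 : Set.Ioo 0 (1 / mu) ∈ 𝓝[<] (1 / mu) := Ioo_mem_nhdsLT (by positivity)
    filter_upwards [h3] with z hz
    have he : 0 < -Real.log (z * mu) := by
      have h1 : z * mu < 1 := by
        have := hz.2
        rwa [lt_div_iff₀ hmu] at this
      have h2 := Real.log_neg (mul_pos hz.1 hmu) h1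
      linarith
    have hm := mass_pos he
    refine ⟨?_, by linarith [hz.2]⟩
    unfold xi
    positivity
  rw [tendsto_iff hg θ]
  unfold XUp XLo
  constructor
  · rintro ⟨H1, H2⟩
    constructor
    · intro ε hε
      filter_upwards [H1 ε hε, hz] with z h1 h2
      exact (log_le_rpow_iff h2.1 h2.2).1 h1
    · intro ε hε
      filter_upwards [H2 ε hε, hz] with z h1 h2
      exact (rpow_le_log_iff h2.1 h2.2).1 h1
  · rintro ⟨H1, H2⟩
    constructor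
    · intro ε hε
      filter_upwards [H1 ε hε, hz] with z h1 h2
      exact (log_le_rpow_iff h2.1 h2.2).2 h1
    · intro ε hε
      filter_upwards [H2 ε hε, hz] with z h1 h2
      exact (rpow_le_log_iff h2.1 h2.2).2 h1

/-- the exponent of the rate function -/
theorem R_lim (θ : ℝ) : Tendsto (fun u : ℝ => Real.log (R u) / Real.log u)
    (𝓝[>] 0) (𝓝 (1 / (1 - θ))) ↔ RGe θ ∧ RLe θ := by
  obtain ⟨s, hs⟩ : ∃ s, s = 1 / (1 - θ) := ⟨_, rfl⟩
  have hz : ∀ᶠ u in 𝓝[>] (0 : ℝ), 0 < R u ∧ 0 < u := by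
    have h3 : Set.Ioo (0 : ℝ) 1 ∈ 𝓝[>] (0 : ℝ) := Ioo_mem_nhdsGT one_pos
    filter_upwards [h3] with u hu
    exact ⟨R_pos hu.1 hu.2.le, hu.1⟩
  have e0 : (fun u : ℝ => Real.log (R u) / Real.log u) =
      fun u => (-Real.log (R u)) / Real.log (1 / u) := by
    funext u
    rw [one_div, Real.log_inv, neg_div_neg_eq]
  unfold RGe RLe
  rw [← hs, e0, tendsto_iff tendsto_log_inv s]
  have k1 : ∀ u ε : ℝ, 0 < R u → 0 < u →
      (-Real.log (R u) ≤ (s + ε) * Real.log (1 / u) ↔ u ^ (s + ε) ≤ R u) := by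
    intro u ε h1 h2
    have h3 := rpow_le_log_iff (f := R u) (t := u) (s := -(s + ε)) h1 h2
    rw [neg_neg] at h3
    rw [← h3]
    constructor
    · intro h
      linarith
    · intro h
      linarith
  have k2 : ∀ u ε : ℝ, 0 < R u → 0 < u →
      ((s - ε) * Real.log (1 / u) ≤ -Real.log (R u) ↔ R u ≤ u ^ (s - ε)) := by
    intro u ε h1 h2
    have h3 := log_le_rpow_iff (f := R u) (t := u) (s := -(s - ε)) h1 h2
    rw [neg_neg] at h3
    rw [← h3]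
    constructor
    · intro h
      linarith
    · intro h
      linarith
  constructor
  · rintro ⟨H1, H2⟩
    constructor
    · intro ε hε
      filter_upwards [H1 ε hε, hz] with u h1 h2
      exact (k1 u ε h2.1 h2.2).1 h1
    · intro ε hε
      filter_upwards [H2 ε hε, hz] with u h1 h2
      exact (k2 u ε h2.1 h2.2).1 h1
  · rintro ⟨H1, H2⟩
    constructor
    · intro ε hε
      filter_upwards [H1 ε hε, hz] with u h1 h2
      exact (k1 u ε h2.1 h2.2).2 h1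
    · intro ε hε
      filter_upwards [H2 ε hε, hz] with u h1 h2
      exact (k2 u ε h2.1 h2.2).2 h1

/-- `n ^ κ < n / 4` for large `n` -/
theorem ev_pow {κ : ℝ} (hκ : κ < 1) : ∀ᶠ n : ℕ in atTop, 4 * (n : ℝ) ^ κ + 4 < n := by
  have h1 : Tendsto (fun n : ℕ => (n : ℝ) ^ (κ - 1)) atTop (𝓝 0) := by
    have := (tendsto_rpow_neg_atTop (show 0 < 1 - κ by linarith)).comp tendsto_natCast_atTop_atTop
    refine this.congr fun n => ?_
    simp only [Function.comp]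
    congr 1
    ring
  filter_upwards [h1.eventually (gt_mem_nhds (show (0 : ℝ) < 1 / 8 by norm_num)),
    eventually_ge_atTop 9] with n h2 h3
  have hn : (9 : ℝ) ≤ n := by exact_mod_cast h3
  have hn0 : (0 : ℝ) < n := by linarith
  have h4 : (n : ℝ) ^ κ = (n : ℝ) ^ (κ - 1) * n := by
    rw [Real.rpow_sub_one hn0.ne']
    field_simp
  rw [h4]
  nlinarith

/-- the tails are positive on the scale `n ^ κ` -/
theorem Tl_pos {P : ℕ → ℝ → ℝ} (hP : Tl P) {κ : ℝ} (hκ : κ < 1) :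
    ∀ᶠ n : ℕ in atTop, 0 < P n ((n : ℝ) ^ κ) := by
  obtain ⟨hm, K, hK, h⟩ := hP
  filter_upwards [ev_pow hκ, eventually_ge_atTop 2] with n h1 h2
  have hn0 : (0 : ℝ) < n := by exact_mod_cast (by omega : 0 < n)
  have hp : 0 < (n : ℝ) ^ κ := Real.rpow_pos_of_pos hn0 _
  obtain ⟨k, hk⟩ : ∃ k : ℕ, k = ⌈(n : ℝ) ^ κ⌉₊ := ⟨_, rfl⟩
  have hk1 : 1 ≤ k := by
    rw [hk]
    exact Nat.ceil_pos.2 hp
  have hk2 : (n : ℝ) ^ κ ≤ k := by rw [hk]; exact Nat.le_ceil _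
  have hk3 : (k : ℝ) ≤ (n : ℝ) ^ κ + 1 := by rw [hk]; exact (Nat.ceil_lt_add_one hp.le).le
  have hk4 : 2 * k < n := by
    have : (2 : ℝ) * k < n := by linarith
    exact_mod_cast this
  exact lt_of_lt_of_le (lt_of_lt_of_le (Real.exp_pos _) (h n h2 k hk1 hk4).1)
    (hm n (by omega) _ _ hp.le hk2)

/-- the tails are at most one -/
theorem le_one_of {P : ℕ → ℝ → ℝ} (h1 : ∀ n : ℕ, 1 ≤ n → ∀ r : ℝ, P n r ≤ 1) {κ : ℝ} :
    ∀ᶠ n : ℕ in atTop, P n ((n : ℝ) ^ κ) ≤ 1 := by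
  filter_upwards [eventually_ge_atTop 1] with n hn
  exact h1 n hn _

/-- the exponent of a tail -/
theorem tail_lim {P : ℕ → ℝ → ℝ} (hP : Tl P) (h1 : ∀ n : ℕ, 1 ≤ n → ∀ r : ℝ, P n r ≤ 1)
    {θ κ : ℝ} (hθ : θ < κ) (hκ : κ < 1) :
    Tendsto (fun n : ℕ => Real.log (-Real.log (P n ((n : ℝ) ^ κ))) / Real.log n) atTop
      (𝓝 ((κ - θ) / (1 - θ))) ↔ TGe P θ κ ∧ TLe P θ κ := by
  obtain ⟨s, hs⟩ : ∃ s, s = (κ - θ) / (1 - θ) := ⟨_, rfl⟩
  have hs0 : 0 < s := by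
    rw [hs]
    exact div_pos (by linarith) (by linarith)
  have hg : Tendsto (fun n : ℕ => Real.log (n : ℝ)) atTop atTop :=
    Real.tendsto_log_atTop.comp tendsto_natCast_atTop_atTop
  unfold TGe TLe
  rw [← hs, tendsto_iff hg s]
  have hbase : ∀ᶠ n : ℕ in atTop, 0 < P n ((n : ℝ) ^ κ) ∧ P n ((n : ℝ) ^ κ) ≤ 1 ∧ (1 : ℝ) < n := by
    filter_upwards [Tl_pos hP hκ, le_one_of h1 (κ := κ), eventually_ge_atTop 2] with n a1 a2 a3
    exact ⟨a1, a2, by exact_mod_cast (by omega : 1 < n)⟩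
  -- pointwise equivalences
  have k1 : ∀ (n : ℕ) (a : ℝ), 0 < a → 0 < P n ((n : ℝ) ^ κ) → P n ((n : ℝ) ^ κ) ≤ 1 →
      (1 : ℝ) < n → (Real.log (-Real.log (P n ((n : ℝ) ^ κ))) ≤ a * Real.log n ↔
        Real.exp (-(n : ℝ) ^ a) ≤ P n ((n : ℝ) ^ κ)) := by
    intro n a ha hp hp1 hn
    have hn0 : (0 : ℝ) < n := by linarith
    have hl : 0 < Real.log n := Real.log_pos hn
    have hq : 0 ≤ -Real.log (P n ((n : ℝ) ^ κ)) := by
      have := Real.log_nonpos hp.le hp1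
      linarith
    have e1 : Real.exp (-(n : ℝ) ^ a) ≤ P n ((n : ℝ) ^ κ) ↔
        -Real.log (P n ((n : ℝ) ^ κ)) ≤ (n : ℝ) ^ a := by
      rw [← Real.le_log_iff_exp_le hp]
      constructor
      · intro h; linarith
      · intro h; linarith
    rw [e1, ← Real.log_rpow hn0]
    rcases hq.eq_or_lt with hq0 | hq0
    · rw [← hq0, Real.log_zero, Real.log_rpow hn0]
      constructor
      · intro _; exact (Real.rpow_pos_of_pos hn0 _).le
      · intro _; positivity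
    · exact Real.log_le_log_iff hq0 (Real.rpow_pos_of_pos hn0 _)
  have k2 : ∀ (n : ℕ) (a : ℝ), 0 < a → 0 < P n ((n : ℝ) ^ κ) → P n ((n : ℝ) ^ κ) ≤ 1 →
      (1 : ℝ) < n → (a * Real.log n ≤ Real.log (-Real.log (P n ((n : ℝ) ^ κ))) ↔
        P n ((n : ℝ) ^ κ) ≤ Real.exp (-(n : ℝ) ^ a)) := by
    intro n a ha hp hp1 hn
    have hn0 : (0 : ℝ) < n := by linarith
    have hl : 0 < Real.log n := Real.log_pos hn
    have hq : 0 ≤ -Real.log (P n ((n : ℝ) ^ κ)) := by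
      have := Real.log_nonpos hp.le hp1
      linarith
    have e1 : P n ((n : ℝ) ^ κ) ≤ Real.exp (-(n : ℝ) ^ a) ↔
        (n : ℝ) ^ a ≤ -Real.log (P n ((n : ℝ) ^ κ)) := by
      rw [← Real.log_le_iff_le_exp hp]
      constructor
      · intro h; linarith
      · intro h; linarith
    rw [e1, ← Real.log_rpow hn0]
    rcases hq.eq_or_lt with hq0 | hq0
    · rw [← hq0, Real.log_zero, Real.log_rpow hn0]
      constructor
      · intro h
        have : 0 < a * Real.log n := by positivity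
        linarith
      · intro h
        have := Real.rpow_pos_of_pos hn0 a
        linarith
    · exact Real.log_le_log_iff (Real.rpow_pos_of_pos hn0 _) hq0
  constructor
  · rintro ⟨H1, H2⟩
    constructor
    · intro ε hε
      obtain ⟨δ, hδ⟩ : ∃ δ, δ = min ε (s / 2) := ⟨_, rfl⟩
      have hδ0 : 0 < δ := by rw [hδ]; exact lt_min hε (by linarith)
      have hδs : δ ≤ s / 2 := by rw [hδ]; exact min_le_right _ _
      have hδε : δ ≤ ε := by rw [hδ]; exact min_le_left _ _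
      filter_upwards [H2 δ hδ0, hbase] with n a1 a2
      have h3 := (k2 n (s - δ) (by linarith) a2.1 a2.2.1 a2.2.2).1 a1
      refine h3.trans (Real.exp_le_exp.2 (neg_le_neg ?_))
      exact Real.rpow_le_rpow_of_exponent_le a2.2.2.le (by linarith)
    · intro ε hε
      filter_upwards [H1 ε hε, hbase] with n a1 a2
      exact (k1 n (s + ε) (by linarith) a2.1 a2.2.1 a2.2.2).1 a1
  · rintro ⟨H1, H2⟩
    constructor
    · intro ε hε
      filter_upwards [H2 ε hε, hbase] with n a1 a2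
      exact (k1 n (s + ε) (by linarith) a2.1 a2.2.1 a2.2.2).2 a1
    · intro ε hε
      obtain ⟨δ, hδ⟩ : ∃ δ, δ = min ε (s / 2) := ⟨_, rfl⟩
      have hδ0 : 0 < δ := by rw [hδ]; exact lt_min hε (by linarith)
      have hδs : δ ≤ s / 2 := by rw [hδ]; exact min_le_right _ _
      have hδε : δ ≤ ε := by rw [hδ]; exact min_le_left _ _
      filter_upwards [H1 δ hδ0, hbase] with n a1 a2
      have h3 := (k2 n (s - δ) (by linarith) a2.1 a2.2.1 a2.2.2).2 a1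
      have hl : 0 < Real.log n := Real.log_pos a2.2.2
      nlinarith

theorem pa_le_one {n : ℕ} (hn : 1 ≤ n) (r : ℝ) : pa n r ≤ 1 := by
  unfold pa par
  have h1 : {f : ZMod (2 * n) → ℤ × ℤ | IsLoop (2 * n) f ∧ r ^ 2 ≤ area (2 * n) f}.ncard ≤
      {f : ZMod (2 * n) → ℤ × ℤ | IsLoop (2 * n) f}.ncard :=
    Set.ncard_le_ncard (fun f hf => hf.1) (loops_finite hn)
  exact div_le_one_of_le₀ (by exact_mod_cast h1) (Nat.cast_nonneg _)

/-- The two-sided statement. -/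
theorem both_tfae (hA : StmA) (hB : StmB) (hC : StmC) (hD : StmD) (hT : StmT) {θ κ : ℝ}
    (h0 : 0 < θ) (h1 : θ < κ) (h2 : κ < 1) :
    List.TFAE [
      Tendsto (fun z : ℝ => Real.log (xi z) / Real.log (1 / (1 / mu - z))) (𝓝[<] (1 / mu)) (𝓝 θ),
      Tendsto (fun u : ℝ => Real.log (R u) / Real.log u) (𝓝[>] 0) (𝓝 (1 / (1 - θ))),
      Tendsto (fun n : ℕ => Real.log (-Real.log (par n ((n : ℝ) ^ (2 * κ)))) / Real.log n) atTop
        (𝓝 ((κ - θ) / (1 - θ))),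
      Tendsto (fun n : ℕ => Real.log (-Real.log (pw n ((n : ℝ) ^ κ))) / Real.log n) atTop
        (𝓝 ((κ - θ) / (1 - θ)))] := by
  have hU := upper_tfae hA hC hT h0 h1 h2
  have hL := lower_tfae hB hD hT h0 h1 h2
  have e3 : (fun n : ℕ => Real.log (-Real.log (par n ((n : ℝ) ^ (2 * κ)))) / Real.log n) =
      fun n : ℕ => Real.log (-Real.log (pa n ((n : ℝ) ^ κ))) / Real.log n := by
    funext n
    unfold pa
    rw [rpow_sq (Nat.cast_nonneg n)]
  have t3 := tail_lim (P := pa) hT.2 (fun n hn r => pa_le_one hn r) h1 h2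
  have t4 := tail_lim (P := pw) hT.1 (fun n hn r => pw_le_one hn r) h1 h2
  rw [e3, xi_lim, R_lim, t3, t4]
  tfae_have 1 ↔ 2 := and_congr (hU.out 0 1) (hL.out 0 1)
  tfae_have 1 ↔ 3 := and_congr (hU.out 0 2) (hL.out 0 2)
  tfae_have 1 ↔ 4 := and_congr (hU.out 0 3) (hL.out 0 3)
  tfae_finish

/-- the upper statement in terms of the area -/
theorem upper_tfae' (hA : StmA) (hC : StmC) (hT : StmT) {θ κ : ℝ} (h0 : 0 < θ) (h1 : θ < κ)
    (h2 : κ < 1) : List.TFAE [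
      ∀ ε : ℝ, 0 < ε → ∀ᶠ z in 𝓝[<] (1 / mu), xi z ≤ (1 / mu - z) ^ (-(θ + ε)),
      ∀ ε : ℝ, 0 < ε → ∀ᶠ u in 𝓝[>] (0 : ℝ), u ^ (1 / (1 - θ) + ε) ≤ R u,
      ∀ ε : ℝ, 0 < ε → ∀ᶠ n : ℕ in atTop,
        par n ((n : ℝ) ^ (2 * κ)) ≤ Real.exp (-(n : ℝ) ^ ((κ - θ) / (1 - θ) - ε)),
      ∀ ε : ℝ, 0 < ε → ∀ᶠ n : ℕ in atTop,
        pw n ((n : ℝ) ^ κ) ≤ Real.exp (-(n : ℝ) ^ ((κ - θ) / (1 - θ) - ε))] := by
  have h := upper_tfae hA hC hT h0 h1 h2
  have e : TGe pa θ κ ↔ ∀ ε : ℝ, 0 < ε → ∀ᶠ n : ℕ in atTop,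
      par n ((n : ℝ) ^ (2 * κ)) ≤ Real.exp (-(n : ℝ) ^ ((κ - θ) / (1 - θ) - ε)) := by
    unfold TGe pa
    simp only [rpow_sq (Nat.cast_nonneg _)]
  rw [e] at h
  exact h

/-- the lower statement in terms of the area -/
theorem lower_tfae' (hB : StmB) (hD : StmD) (hT : StmT) {θ κ : ℝ} (h0 : 0 < θ) (h1 : θ < κ)
    (h2 : κ < 1) : List.TFAE [
      ∀ ε : ℝ, 0 < ε → ∀ᶠ z in 𝓝[<] (1 / mu), (1 / mu - z) ^ (-(θ - ε)) ≤ xi z,
      ∀ ε : ℝ, 0 < ε → ∀ᶠ u in 𝓝[>] (0 : ℝ), R u ≤ u ^ (1 / (1 - θ) - ε),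
      ∀ ε : ℝ, 0 < ε → ∀ᶠ n : ℕ in atTop,
        Real.exp (-(n : ℝ) ^ ((κ - θ) / (1 - θ) + ε)) ≤ par n ((n : ℝ) ^ (2 * κ)),
      ∀ ε : ℝ, 0 < ε → ∀ᶠ n : ℕ in atTop,
        Real.exp (-(n : ℝ) ^ ((κ - θ) / (1 - θ) + ε)) ≤ pw n ((n : ℝ) ^ κ)] := by
  have h := lower_tfae hB hD hT h0 h1 h2
  have e : TLe pa θ κ ↔ ∀ ε : ℝ, 0 < ε → ∀ᶠ n : ℕ in atTop,
      Real.exp (-(n : ℝ) ^ ((κ - θ) / (1 - θ) + ε)) ≤ par n ((n : ℝ) ^ (2 * κ)) := by
    unfold TLe pa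
    simp only [rpow_sq (Nat.cast_nonneg _)]
  rw [e] at h
  exact h

end Pool.Agent.T6.H53.FR
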